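import Pool.Agent.P8H82.FF.Stm
import Pool.Agent.P8H88.WS.Fpl
import Pool.Agent.P8H20.WS.Lam

set_option autoImplicit false

/-!
# Project FF (helper82), package HTX: the finite part of the height for all triples
-/

namespace Pool.Agent.P8H52.FF

open NumberField IsDedekindDomain
open Pool.Agent.P8H82.WS Pool.Agent.P8H82.JG Pool.Agent.P8H82.FF
open Pool.Agent.P8H88.WS (mk_pos mk_le_one mk_eq_one supp_fin sum_log j_eq)

theorem htx_two (hTWO : S_TWO) : S_HTX := by
  intro K _ _ σ τ hG t m ht hm1 hm2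
  have hK : Module.finrank ℚ K = 2 := hG.rank
  obtain ⟨P2, hP2, hP2n⟩ := hTWO K σ τ hG
  have hj := j_eq ht
  set n : 𝓞 K := t.1 * t.2.1 * t.2.2 with hn
  have hn0 : n ≠ 0 := ht.ne
  have hn0' : (n : K) ≠ 0 := by
    rw [ne_eq, RingOfIntegers.coe_eq_zero_iff]
    exact hn0
  set S : 𝓞 K := t.1 ^ 2 + t.1 * t.2.1 + t.2.1 ^ 2 with hS
  have hj' : jL (lamT t) = ((256 : 𝓞 K) : K) * (S : K) ^ 3 / (n : K) ^ 2 := by
    rw [hj, hS]
    simp only [RingOfIntegers.coe_eq_algebraMap, map_mul, map_add, map_pow, map_ofNat]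
  -- coprimality
  have hcop : ∀ v : HeightOneSpectrum (𝓞 K), ¬ (t.1 ∈ v.asIdeal ∧ t.2.1 ∈ v.asIdeal) := by
    rintro v ⟨h1, h2⟩
    have h3 : t.2.2 ∈ v.asIdeal := by
      have : t.2.2 = -(t.1 + t.2.1) := by linear_combination ht.sum
      rw [this]
      exact neg_mem (add_mem h1 h2)
    apply v.isPrime.ne_top
    rw [← top_le_iff, ← ht.cop, Ideal.span_le]
    rintro x (rfl | rfl | rfl)
    · exact h1
    · exact h2
    · exact h3
  have hSv : ∀ v : HeightOneSpectrum (𝓞 K), n ∈ v.asIdeal → S ∉ v.asIdeal := by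
    intro v hv hSm
    have hp := v.isPrime
    have hc : t.2.2 = -(t.1 + t.2.1) := by linear_combination ht.sum
    rcases hp.mem_or_mem hv with h1 | h1
    · rcases hp.mem_or_mem h1 with h2 | h2
      · apply hcop v
        refine ⟨h2, hp.mem_of_pow_mem 2 ?_⟩
        have : t.2.1 ^ 2 = S - t.1 * (t.1 + t.2.1) := by rw [hS]; ring
        rw [this]
        exact sub_mem hSm (Ideal.mul_mem_right _ _ h2)
      · apply hcop v
        refine ⟨hp.mem_of_pow_mem 2 ?_, h2⟩
        have : t.1 ^ 2 = S - t.2.1 * (t.1 + t.2.1) := by rw [hS]; ring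
        rw [this]
        exact sub_mem hSm (Ideal.mul_mem_right _ _ h2)
    · have h3 : t.1 + t.2.1 ∈ v.asIdeal := by
        rw [hc] at h1
        exact neg_mem_iff.1 h1
      have h4 : t.1 ∈ v.asIdeal := by
        apply hp.mem_of_pow_mem 2
        have : t.1 ^ 2 = S - t.2.1 * (t.1 + t.2.1) := by rw [hS]; ring
        rw [this]
        exact sub_mem hSm (Ideal.mul_mem_left _ _ h3)
      apply hcop v
      refine ⟨h4, ?_⟩
      have : t.2.1 = (t.1 + t.2.1) - t.1 := by ring
      rw [this]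
      exact sub_mem h3 h4
  -- the prime two
  have h20 : (2 : 𝓞 K) ≠ 0 := two_ne_zero
  have hother : ∀ v : HeightOneSpectrum (𝓞 K), v ≠ P2 → (2 : 𝓞 K) ∉ v.asIdeal := by
    intro v hv h
    apply hv
    have h1 : P2.asIdeal ≤ v.asIdeal := by
      rw [hP2, Ideal.span_le]
      rintro x rfl
      exact h
    have h2 := (P2.isPrime.isMaximal P2.ne_bot).eq_of_le v.isPrime.ne_top h1
    exact HeightOneSpectrum.ext h2.symm
  have hmk2 : Real.log (FinitePlace.mk P2 ((2 : 𝓞 K) : K)) = - Real.log 4 := by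
    have h1 := sum_log (K := K) h20
    rw [finsum_eq_single _ P2 (fun v hv => by rw [mk_eq_one v (hother v hv), Real.log_one])] at h1
    rw [h1]
    congr 2
    have h3 : Ideal.absNorm (Ideal.span {(2 : 𝓞 K)}) = 2 ^ 2 := by
      have h2 : (2 : 𝓞 K) = ((2 : ℕ) : 𝓞 K) := by norm_num
      rw [h2, Ideal.absNorm_span_natCast, RingOfIntegers.rank, hK]
    rw [h3]
    norm_num
  -- the valuation of `n` at two
  obtain ⟨z, hz⟩ : ∃ z : 𝓞 K, n = 2 ^ m * z := by
    rw [Ideal.span_singleton_pow, Ideal.mem_span_singleton] at hm1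
    exact hm1
  have hz2 : z ∉ P2.asIdeal := by
    intro h
    apply hm2
    rw [hP2, Ideal.mem_span_singleton] at h
    obtain ⟨y, rfl⟩ := h
    rw [Ideal.span_singleton_pow, Ideal.mem_span_singleton, hz]
    exact ⟨y, by ring⟩
  have hnlog : Real.log (FinitePlace.mk P2 (n : K)) = - (m : ℝ) * Real.log 4 := by
    have h1 : (n : K) = ((2 : 𝓞 K) : K) ^ m * (z : K) := by
      rw [hz]
      simp only [RingOfIntegers.coe_eq_algebraMap, map_mul, map_pow]
    rw [h1, map_mul, map_pow, mk_eq_one P2 hz2, mul_one, Real.log_pow, hmk2]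
    ring
  have h2mem : (2 : 𝓞 K) ∈ P2.asIdeal := by
    rw [hP2]; exact Ideal.mem_span_singleton_self 2
  have h256 : ((256 : 𝓞 K) : K) = ((2 : 𝓞 K) : K) ^ 8 := by
    simp only [map_ofNat]
    norm_num
  have h256log : Real.log (FinitePlace.mk P2 ((256 : 𝓞 K) : K)) = - 8 * Real.log 4 := by
    rw [h256, map_pow, Real.log_pow, hmk2]
    push_cast
    ring
  have h2' : ((2 : 𝓞 K) : K) ≠ 0 := by
    rw [ne_eq, RingOfIntegers.coe_eq_zero_iff]
    exact h20
  have h256' : ((256 : 𝓞 K) : K) ≠ 0 := by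
    rw [h256]; exact pow_ne_zero _ h2'
  have hlog4 : 0 < Real.log 4 := Real.log_pos (by norm_num)
  -- the local terms
  have hodd : ∀ v : HeightOneSpectrum (𝓞 K), v ≠ P2 →
      Real.log (max (FinitePlace.mk v (jL (lamT t))) 1) =
        - 2 * Real.log (FinitePlace.mk v (n : K)) := by
    intro v hv
    have h1 : (256 : 𝓞 K) ∉ v.asIdeal := by
      intro h
      apply hother v hv
      apply v.isPrime.mem_of_pow_mem 8
      have : (2 : 𝓞 K) ^ 8 = 256 := by norm_num
      rw [this]
      exact h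
    have hnp := mk_pos v hn0'
    rw [hj', map_div₀, map_mul, map_pow, map_pow, mk_eq_one v h1, one_mul]
    by_cases hvn : n ∈ v.asIdeal
    · rw [mk_eq_one v (hSv v hvn), one_pow, max_eq_left, Real.log_div one_ne_zero (by positivity),
        Real.log_one, Real.log_pow]
      · push_cast; ring
      · rw [le_div_iff₀ (by positivity), one_mul]
        exact pow_le_one₀ (apply_nonneg _ _) (mk_le_one v n)
    · rw [mk_eq_one v hvn, one_pow, div_one, Real.log_one, mul_zero, max_eq_right, Real.log_one]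
      exact pow_le_one₀ (apply_nonneg _ _) (mk_le_one v S)
  have htwo : Real.log (max (FinitePlace.mk P2 (jL (lamT t))) 1) =
      max 0 (2 * (m : ℝ) - 8) * Real.log 4 := by
    have hnp := mk_pos P2 hn0'
    have h256p := mk_pos P2 h256'
    rw [hj', map_div₀, map_mul, map_pow, map_pow]
    rcases Nat.eq_zero_or_pos m with hm0 | hm0
    · have hnz : n ∉ P2.asIdeal := by
        rw [hz, hm0, pow_zero, one_mul]; exact hz2
      rw [mk_eq_one P2 hnz, one_pow, div_one, max_eq_right, Real.log_one, max_eq_left, zero_mul]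
      · rw [hm0]; norm_num
      · have h3 : FinitePlace.mk P2 (S : K) ^ 3 ≤ 1 :=
          pow_le_one₀ (apply_nonneg _ _) (mk_le_one P2 S)
        have h4 : FinitePlace.mk P2 ((256 : 𝓞 K) : K) ≤ 1 := mk_le_one P2 256
        have h5 : 0 ≤ FinitePlace.mk P2 (S : K) ^ 3 := pow_nonneg (apply_nonneg _ _) _
        calc _ ≤ (1 : ℝ) * 1 := mul_le_mul h4 h3 h5 zero_le_one
          _ = 1 := one_mul 1
    · have hnz : n ∈ P2.asIdeal := by
        rw [hz]
        exact Ideal.mul_mem_right _ _ (Ideal.pow_mem_of_mem _ h2mem _ hm0)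
      rw [mk_eq_one P2 (hSv P2 hnz), one_pow, mul_one]
      have hlog : Real.log (FinitePlace.mk P2 ((256 : 𝓞 K) : K) / FinitePlace.mk P2 (n : K) ^ 2) =
          (2 * (m : ℝ) - 8) * Real.log 4 := by
        rw [Real.log_div h256p.ne' (by positivity), Real.log_pow, h256log, hnlog]
        push_cast
        ring
      have hpos : 0 < FinitePlace.mk P2 ((256 : 𝓞 K) : K) / FinitePlace.mk P2 (n : K) ^ 2 := by
        positivity
      rcases le_total (2 * (m : ℝ) - 8) 0 with h | h
      · rw [max_eq_left h, zero_mul, max_eq_right, Real.log_one]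
        rw [← Real.log_nonpos_iff hpos.le, hlog]
        exact mul_nonpos_of_nonpos_of_nonneg h hlog4.le
      · rw [max_eq_right h, max_eq_left, hlog]
        rw [← Real.log_nonneg_iff hpos, hlog]
        exact mul_nonneg h hlog4.le
  have hs2 : (fun v : HeightOneSpectrum (𝓞 K) =>
      Real.log (FinitePlace.mk v (n : K))).HasFiniteSupport := supp_fin hn0
  have hs3 : (fun v : HeightOneSpectrum (𝓞 K) =>
      - 2 * Real.log (FinitePlace.mk v (n : K))).HasFiniteSupport := by
    refine hs2.subset ?_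
    intro v hv h0
    apply hv
    simp only at h0 ⊢
    rw [h0, mul_zero]
  classical
  have hs4 : (fun v : HeightOneSpectrum (𝓞 K) => if v = P2 then
      - 2 * (m : ℝ) * Real.log 4 + max 0 (2 * (m : ℝ) - 8) * Real.log 4 else 0).HasFiniteSupport := by
    refine (Set.finite_singleton P2).subset ?_
    intro v hv
    by_contra hne
    apply hv
    simp only
    rw [if_neg (show ¬ v = P2 from hne)]
  have hloc : ∀ v : HeightOneSpectrum (𝓞 K),
      Real.log (max (FinitePlace.mk v (jL (lamT t))) 1) =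
        - 2 * Real.log (FinitePlace.mk v (n : K)) + (if v = P2 then
      - 2 * (m : ℝ) * Real.log 4 + max 0 (2 * (m : ℝ) - 8) * Real.log 4 else 0) := by
    intro v
    split_ifs with h
    · rw [h, htwo, hnlog]; ring
    · rw [hodd v h, add_zero]
  rw [finsum_congr hloc, finsum_add_distrib hs3 hs4, ← mul_finsum, sum_log hn0,
    finsum_eq_single _ P2 (fun v hv => if_neg hv), if_pos rfl]
  ring

/-- package HTX -/
theorem htx : S_HTX := htx_two Pool.Agent.P8H20.WS.two

end Pool.Agent.P8H52.FF
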